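import Mathlib
import Pool.Agent.Helper26.Maz.Defs

/-!
# The degree of the projection to the circle; continuity of the polygons
-/

set_option autoImplicit false

namespace Pool.Agent.Helper26.Maz

theorem Deg.ramp_zero (i : Fin 26) : max (0 : ℝ) (min 1 ((0 : ℝ) - i)) = 0 := by
  have h : ((0 : ℝ) - i) ≤ 0 := by simp
  exact max_eq_left ((min_le_right _ _).trans h)

theorem Deg.ramp_last (i : Fin 26) : max (0 : ℝ) (min 1 ((26 : ℝ) - i)) = 1 := by
  have h : (1 : ℝ) ≤ (26 : ℝ) - i := by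
    have h1 : ((i : ℕ) : ℝ) + 1 ≤ 26 := by
      have h2 : (i : ℕ) + 1 ≤ 26 := i.2
      exact_mod_cast h2
    linarith
  rw [min_eq_left h]
  norm_num

theorem Deg.continuous_sum (c : Fin 26 → ℤ) :
    Continuous fun t : ℝ => ∑ i : Fin 26, max 0 (min 1 (t - i)) * ((c i : ℤ) : ℝ) := by
  fun_prop

/-- MAZ-LOOP. -/
theorem continuous_polygon (s : Fin 26 → ℤ × ℤ × ℤ) (p : ℝ × ℝ × ℝ)
    (h1 : (4 : ℤ) ∣ ∑ i, (s i).1) (h2 : ∑ i, (s i).2.1 = 0) (h3 : ∑ i, (s i).2.2 = 0) :
    Continuous (polygon s p) := by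
  unfold polygon
  refine AddCircle.liftIco_continuous ?_ ?_
  · simp only [zero_add, Deg.ramp_zero, Deg.ramp_last, zero_mul, one_mul, Finset.sum_const_zero,
      add_zero]
    refine Prod.ext ?_ (Prod.ext ?_ ?_)
    · obtain ⟨k, hk⟩ := h1
      have h : (∑ i : Fin 26, (((s i).1 : ℤ) : ℝ)) = (k : ℤ) • (4 : ℝ) := by
        rw [← Int.cast_sum, hk]
        push_cast
        rw [zsmul_eq_mul]
        ring
      show ((p.1 : ℝ) : C4) = ((p.1 + ∑ i : Fin 26, (((s i).1 : ℤ) : ℝ) : ℝ) : C4)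
      rw [h, AddCircle.coe_add]
      have h' : ((k • (4 : ℝ) : ℝ) : C4) = 0 := by
        rw [AddCircle.coe_eq_zero_iff]
        exact ⟨k, rfl⟩
      rw [h', add_zero]
    · show p.2.1 = p.2.1 + ∑ i : Fin 26, (((s i).2.1 : ℤ) : ℝ)
      rw [← Int.cast_sum, h2]
      simp
    · show p.2.2 = p.2.2 + ∑ i : Fin 26, (((s i).2.2 : ℤ) : ℝ)
      rw [← Int.cast_sum, h3]
      simp
  · refine Continuous.continuousOn ?_
    refine Continuous.prodMk ?_ (Continuous.prodMk ?_ ?_)
    · exact (AddCircle.continuous_mk' 4).comp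
        (continuous_const.add (Deg.continuous_sum fun i => (s i).1))
    · exact continuous_const.add (Deg.continuous_sum fun i => (s i).2.1)
    · exact continuous_const.add (Deg.continuous_sum fun i => (s i).2.2)

/-- The real periodic function of the first coordinate of the knot. -/
noncomputable def Deg.gR (t : ℝ) : ℝ :=
  ∑ i : Fin 26, max 0 (min 1 (t - i)) * ((steps i).1 : ℝ) - t * ((26 : ℝ)⁻¹ * 4)

noncomputable def Deg.g : C26 → ℝ := AddCircle.liftIco 26 0 Deg.gR

theorem Deg.continuous_g : Continuous Deg.g := by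
  refine AddCircle.liftIco_continuous ?_ ?_
  · simp only [Deg.gR, zero_add, Deg.ramp_zero, Deg.ramp_last, zero_mul, one_mul,
      Finset.sum_const_zero]
    have h : (∑ i : Fin 26, (((steps i).1 : ℤ) : ℝ)) = 4 := by
      rw [← Int.cast_sum]
      have : (∑ i : Fin 26, (steps i).1) = 4 := by decide
      rw [this]
      norm_num
    rw [h]
    norm_num
  · exact ((Deg.continuous_sum fun i => (steps i).1).sub (continuous_id.mul continuous_const)).continuousOn

theorem Deg.g_spec (t : C26) : ((Deg.g t : ℝ) : C4) = (knot 0 t).1 - rho t := by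
  obtain ⟨x, hx, rfl⟩ := AddCircle.eq_coe_Ico t
  have hx' : x ∈ Set.Ico (0 : ℝ) (0 + 26) := by simpa using hx
  unfold Deg.g knot polygon
  rw [AddCircle.liftIco_coe_apply hx', AddCircle.liftIco_coe_apply hx']
  have hr : rho ((x : ℝ) : C26) = ((x * ((26 : ℝ)⁻¹ * 4) : ℝ) : C4) := by
    unfold rho
    exact AddCircle.homeomorphAddCircle_apply_mk 26 4 (by norm_num) (by norm_num) x
  rw [hr]
  unfold Deg.gR
  rw [AddCircle.coe_sub]
  simp

/-- Scaling in the disk. -/
noncomputable def Deg.sc (u : unitInterval) (s : D2) : D2 :=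
  ⟨((u : ℝ) : ℂ) * (s : ℂ), by
    have h1 : ‖(s : ℂ)‖ ≤ 1 := mem_closedBall_zero_iff.1 s.2
    have h2 : ‖((u : ℝ) : ℂ)‖ ≤ 1 := by
      rw [Complex.norm_real, Real.norm_eq_abs, abs_of_nonneg u.2.1]
      exact u.2.2
    have : ‖((u : ℝ) : ℂ) * (s : ℂ)‖ ≤ 1 := by
      rw [norm_mul]
      exact mul_le_one₀ h2 (norm_nonneg _) h1
    simpa using this⟩

theorem Deg.continuous_sc : Continuous fun p : unitInterval × D2 => Deg.sc p.1 p.2 := by
  unfold Deg.sc
  fun_prop

/-- MAZ-DEG. -/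
theorem exists_delta (φ : C26 × D2 → C4 × S2) (hφ : IsTube φ) :
    ∃ δ : C26 × D2 → ℝ, Continuous δ ∧ ∀ p, (φ p).1 = rho p.1 + (δ p : C4) := by
  obtain ⟨hc, -, -, hcore, -⟩ := hφ
  have cov : IsCoveringMap ((↑) : ℝ → AddCircle (4 : ℝ)) := AddCircle.isCoveringMap_coe 4
  let H : C(unitInterval × (C26 × D2), C4) :=
    { toFun := fun q => (φ (q.2.1, Deg.sc q.1 q.2.2)).1 - rho q.2.1
      continuous_toFun := by
        have h1 : Continuous fun q : unitInterval × (C26 × D2) => Deg.sc q.1 q.2.2 :=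
          Deg.continuous_sc.comp (continuous_fst.prodMk (continuous_snd.comp continuous_snd))
        have h2 : Continuous fun q : unitInterval × (C26 × D2) => (φ (q.2.1, Deg.sc q.1 q.2.2)).1 :=
          continuous_fst.comp (hc.comp ((continuous_fst.comp continuous_snd).prodMk h1))
        exact h2.sub (rho.continuous.comp (continuous_fst.comp continuous_snd)) }
  let f0 : C(C26 × D2, ℝ) :=
    { toFun := fun p => Deg.g p.1
      continuous_toFun := Deg.continuous_g.comp continuous_fst }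
  have H0 : ∀ a, H (0, a) = ((f0 a : ℝ) : C4) := by
    intro a
    show (φ (a.1, Deg.sc 0 a.2)).1 - rho a.1 = ((Deg.g a.1 : ℝ) : C4)
    have h1 : Deg.sc 0 a.2 = d0 := by
      apply Subtype.ext
      simp [Deg.sc, d0]
    rw [h1, hcore, Deg.g_spec]
    rfl
  refine ⟨fun p => cov.liftHomotopy H f0 H0 (1, p), ?_, ?_⟩
  · exact (cov.liftHomotopy H f0 H0).continuous.comp (continuous_const.prodMk continuous_id)
  · intro p
    have h := congrFun (cov.liftHomotopy_lifts H f0 H0) (1, p)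
    have h1 : Deg.sc 1 p.2 = p.2 := by
      apply Subtype.ext
      simp [Deg.sc]
    have h2 : H (1, p) = (φ p).1 - rho p.1 := by
      show (φ (p.1, Deg.sc 1 p.2)).1 - rho p.1 = (φ p).1 - rho p.1
      rw [h1]
    have h3 : ((cov.liftHomotopy H f0 H0 (1, p) : ℝ) : C4) = (φ p).1 - rho p.1 := by
      rw [← h2]
      exact h
    rw [h3]
    abel

end Pool.Agent.Helper26.Maz
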